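import Pool.Agent.H947R2.DS.Final
import Pool.Agent.H947R2.DS.A
import Pool.Agent.H947R2.DS.One
import Pool.Agent.H947R2.DS.I
import Pool.Agent.H401R9.DS.BOX
import Pool.Agent.H272R9.DS.COV
import Pool.Agent.H331R9.DS.ORTH
import Pool.Agent.H48R9.DS.PROG

set_option autoImplicit false
open scoped Pointwise

namespace Pool.Agent.Results.MP_626a77_co.BoxAnchored

/-- Polynomial Freiman-Ruzsa for sets Freiman-isomorphic to box-anchored sets of arbitrary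
dimension (helper947; formalised with helpers 401, 272, 331, 48, 298). -/
theorem result {Γ : Type*} [AddCommGroup Γ] [DecidableEq Γ] (K : ℝ) (A : Finset Γ)
    (hA : A.Nonempty) (hK : ((A + A).card : ℝ) ≤ K * (A.card : ℝ))
    (n : ℕ) (S : Finset (Fin n → ℤ))
    (hbox : ∀ x ∈ S, ∀ y : Fin n → ℤ,
      (∀ i, (0 ≤ y i ∧ y i ≤ x i) ∨ (x i ≤ y i ∧ y i ≤ 0)) → y ∈ S)
    (f : (Fin n → ℤ) → Γ)
    (hf : IsAddFreimanIso 2 (S : Set (Fin n → ℤ)) (A : Set Γ) f) :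
    ∃ (d : ℕ) (B : Set (Fin d → ℝ)) (ψ : (Fin d → ℤ) →+ Γ) (T : Finset Γ),
      (2 : ℝ) ^ d ≤ 2 * K ∧
      Convex ℝ B ∧ IsCompact B ∧ (interior B).Nonempty ∧ (∀ x ∈ B, -x ∈ B) ∧
      {x : Fin d → ℤ | (fun i => (x i : ℝ)) ∈ B}.Finite ∧
      {x : Fin d → ℤ | (fun i => (x i : ℝ)) ∈ B}.ncard ≤ A.card ∧
      (T.card : ℝ) ≤ 1024 * K ^ 10 ∧
      ∀ a ∈ A, ∃ t ∈ T, ∃ x : Fin d → ℤ, (fun i => (x i : ℝ)) ∈ B ∧ a = t + ψ x :=
  H947DS.final (H947DS.BOX_proof (H947DS.A_proof (H947DS.ONE_proof H947DS.W_proof))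
    H947DS.I_proof H947DS.ORTH_proof) H947DS.COV_proof H947DS.PROG_proof
    K A hA hK n S hbox f hf

end Pool.Agent.Results.MP_626a77_co.BoxAnchored
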