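import Pool.Agent.H947R2.CV.Final
import Pool.Agent.H947R2.CV.Body
import Pool.Agent.H947R2.CV.Rank
import Pool.Agent.H676R9.CV.SHR

set_option autoImplicit false
open scoped Pointwise

namespace Pool.Agent.Results.MP_626a77_co.DimensionFree

/-- Polynomial Freiman-Ruzsa, with automatic dimension `O(log K)`, for sets commensurate with a
subset of a 2-proper convex progression of arbitrary dimension (helper947; formalised with
helpers 862, 676, 634). -/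
theorem result {Γ : Type*} [AddCommGroup Γ] [DecidableEq Γ] (K L : ℝ) (A : Finset Γ)
    (hA : A.Nonempty) (hK : ((A + A).card : ℝ) ≤ K * (A.card : ℝ))
    (n : ℕ) (B : Set (Fin n → ℝ)) (hB : Convex ℝ B) (P : Finset (Fin n → ℤ))
    (hP : ∀ x : Fin n → ℤ, x ∈ P ↔ (fun i => (x i : ℝ)) ∈ B)
    (φ : (Fin n → ℤ) →+ Γ) (hφ : Set.InjOn φ ((P + P : Finset (Fin n → ℤ)) : Set (Fin n → ℤ)))
    (x₀ : Γ) (hdense : (A.card : ℝ) ≤ L * ((A ∩ P.image (fun x => x₀ + φ x)).card : ℝ))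
    (hsize : (P.card : ℝ) ≤ L * A.card) :
    ∃ (d : ℕ) (B' : Set (Fin d → ℝ)) (ψ : (Fin d → ℤ) →+ Γ) (T : Finset Γ),
      (d : ℝ) ≤ 480 * Real.log (K * L) + 1 ∧
      Convex ℝ B' ∧ IsCompact B' ∧ (interior B').Nonempty ∧ (∀ x ∈ B', -x ∈ B') ∧
      {x : Fin d → ℤ | (fun i => (x i : ℝ)) ∈ B'}.Finite ∧
      {x : Fin d → ℤ | (fun i => (x i : ℝ)) ∈ B'}.ncard ≤ A.card ∧
      (T.card : ℝ) ≤ 144 * (K * L) ^ 2800 ∧
      ∀ a ∈ A, ∃ t ∈ T, ∃ x : Fin d → ℤ, (fun i => (x i : ℝ)) ∈ B' ∧ a = t + ψ x :=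
  H947CV.final H947CV.RANK_proof2 H947CV.SHR_proof H947CV.BODY_proof'
    K L A hA hK n B hB P hP φ hφ x₀ hdense hsize

end Pool.Agent.Results.MP_626a77_co.DimensionFree
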