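import Pool.Agent.H112R2.Final

set_option autoImplicit false
open scoped Pointwise

namespace Pool.Agent.Results.MP_626a77_co.NearPFRInt

/-- Freiman-Ruzsa theorem in the integers with near-polynomial bounds. -/
theorem result (K : ℝ) (A : Finset ℤ) (hA : A.Nonempty)
    (hK : ((A + A).card : ℝ) ≤ K * (A.card : ℝ)) :
    ∃ (d : ℕ) (B : Set (Fin d → ℝ)) (v : Fin d → ℤ) (T : Finset ℤ),
      (d : ℝ) ≤ 300 * Real.log (2 * K) ∧
      Convex ℝ B ∧ IsCompact B ∧ (interior B).Nonempty ∧ (∀ x ∈ B, -x ∈ B) ∧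
      {x : Fin d → ℤ | (fun i => (x i : ℝ)) ∈ B}.ncard ≤ A.card ∧
      (T.card : ℝ) ≤ (2 * K) ^ (13000 * (1 + Real.log (1 + Real.log (2 * K)))) ∧
      ∀ a ∈ A, ∃ t ∈ T, ∃ x : Fin d → ℤ,
        (fun i => (x i : ℝ)) ∈ B ∧ a = t + ∑ i, v i * x i := by
  classical
  obtain ⟨d, B, ψ, H, T, hd, hB, hH, hvol, hT, hcov⟩ := H112.near_pfr hA hK
  have hHbot : ∀ h ∈ H, h = 0 := by
    intro h hh
    have h1 : Nat.card H • (⟨h, hh⟩ : H) = 0 := card_nsmul_eq_zero'
    have h2 : Nat.card H • h = 0 := by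
      have h3 := congrArg H.subtype h1
      rw [map_nsmul, map_zero] at h3
      exact h3
    have h4 : Nat.card H ≠ 0 := Nat.card_pos.ne'
    rw [nsmul_eq_mul] at h2
    rcases mul_eq_zero.1 h2 with h5 | h5
    · exact absurd (by exact_mod_cast h5) h4
    · exact h5
  have hHcard : Nat.card H = 1 := by
    rw [Nat.card_eq_one_iff_unique]
    refine ⟨⟨fun a b => Subtype.ext ?_⟩, ⟨0⟩⟩
    rw [hHbot a.1 a.2, hHbot b.1 b.2]
  refine ⟨d, B, fun i => ψ (Pi.single i 1), T, hd, hB.1, hB.2.1, hB.2.2.1, hB.2.2.2, ?_, hT, ?_⟩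
  · rw [hHcard, mul_one] at hvol
    exact hvol
  · intro a ha
    obtain ⟨t, ht, x, hx, h, hh, e⟩ := hcov a ha
    refine ⟨t, ht, x, hx, ?_⟩
    rw [e, hHbot h hh, add_zero]
    congr 1
    have h1 : x = ∑ i, x i • (Pi.single i 1 : Fin d → ℤ) := by
      funext j
      rw [Finset.sum_apply]
      simp [Pi.single_apply]
    conv_lhs => rw [h1]
    rw [map_sum]
    apply Finset.sum_congr rfl
    intro i _
    rw [map_zsmul, smul_eq_mul, mul_comm]

end Pool.Agent.Results.MP_626a77_co.NearPFRInt
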